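import Mathlib

set_option autoImplicit false

namespace Pool.Agent.Results.MP_105763_al.LeonardZero

open Polynomial Matrix

/-- `A` is multiplicity-free (its `d + 1` eigenvalues `θ 0, …, θ d` in `K` are mutually
distinct) and `E 0, …, E d` is the corresponding ordering of its primitive idempotents: the `E i`
are nonzero mutually orthogonal idempotents with sum `1`, and `A = ∑ i, θ i • E i`. -/
def IsPrimitiveIdempotentOrdering {K : Type*} [Field K] {d : ℕ}
    (A : Matrix (Fin (d + 1)) (Fin (d + 1)) K)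
    (E : Fin (d + 1) → Matrix (Fin (d + 1)) (Fin (d + 1)) K) : Prop :=
  ∃ θ : Fin (d + 1) → K, Function.Injective θ ∧
    (∀ i, E i ≠ 0) ∧ (∀ i, E i * E i = E i) ∧ (∀ i j, i ≠ j → E i * E j = 0) ∧
    (∑ i, E i = 1) ∧ A = ∑ i, θ i • E i

/-- A Leonard system `(A; A*; {E i}; {E* i})` in `Mat_{d+1}(K)`: `A`, `A*` are
multiplicity-free, `E`, `E*` are orderings of their primitive idempotents, and
`E i A* E j`, `E* i A E* j` vanish when `|i - j| > 1` and are nonzero when `|i - j| = 1`. -/
structure IsLeonardSystem {K : Type*} [Field K] (d : ℕ)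
    (A Astar : Matrix (Fin (d + 1)) (Fin (d + 1)) K)
    (E Estar : Fin (d + 1) → Matrix (Fin (d + 1)) (Fin (d + 1)) K) : Prop where
  ordering : IsPrimitiveIdempotentOrdering A E
  ordering_star : IsPrimitiveIdempotentOrdering Astar Estar
  zero_of_far : ∀ i j : Fin (d + 1), 1 < |((i : ℕ) : ℤ) - ((j : ℕ) : ℤ)| → E i * Astar * E j = 0
  ne_zero_of_adj : ∀ i j : Fin (d + 1), |((i : ℕ) : ℤ) - ((j : ℕ) : ℤ)| = 1 →
    E i * Astar * E j ≠ 0
  zero_of_far_star : ∀ i j : Fin (d + 1), 1 < |((i : ℕ) : ℤ) - ((j : ℕ) : ℤ)| →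
    Estar i * A * Estar j = 0
  ne_zero_of_adj_star : ∀ i j : Fin (d + 1), |((i : ℕ) : ℤ) - ((j : ℕ) : ℤ)| = 1 →
    Estar i * A * Estar j ≠ 0

section aux

variable {K : Type*} [Field K] {d : ℕ}

/-- A basis adapted to a complete system of `d + 1` orthogonal nonzero idempotents. -/
lemma exists_adapted_basis (F : Fin (d + 1) → Matrix (Fin (d + 1)) (Fin (d + 1)) K)
    (hne : ∀ i, F i ≠ 0) (hid : ∀ i, F i * F i = F i)
    (hort : ∀ i j, i ≠ j → F i * F j = 0) :
    ∃ b : Module.Basis (Fin (d + 1)) K (Fin (d + 1) → K),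
      (∀ i, F i *ᵥ b i = b i) ∧ (∀ i j, i ≠ j → F i *ᵥ b j = 0) := by
  classical
  have hex : ∀ i, ∃ v : Fin (d + 1) → K, F i *ᵥ v ≠ 0 := by
    intro i
    by_contra hcon
    push Not at hcon
    apply hne i
    apply Matrix.toLin'.injective
    ext1 j
    ext1
    simp [Matrix.toLin'_apply, hcon]
  choose w hw using hex
  set v : Fin (d + 1) → (Fin (d + 1) → K) := fun i => F i *ᵥ w i with hv
  have hvi : ∀ i, F i *ᵥ v i = v i := by
    intro i
    simp only [hv, Matrix.mulVec_mulVec, hid]
  have hvj : ∀ i j, i ≠ j → F i *ᵥ v j = 0 := by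
    intro i j hij
    simp only [hv, Matrix.mulVec_mulVec, hort i j hij, Matrix.zero_mulVec]
  have hli : LinearIndependent K v := by
    rw [Fintype.linearIndependent_iff]
    intro g hg i
    have h1 : F i *ᵥ (∑ j, g j • v j) = g i • v i := by
      rw [Matrix.mulVec_sum]
      rw [Finset.sum_eq_single i]
      · rw [Matrix.mulVec_smul, hvi]
      · intro j _ hji
        rw [Matrix.mulVec_smul, hvj i j (Ne.symm hji), smul_zero]
      · intro h; exact absurd (Finset.mem_univ i) h
    rw [hg, Matrix.mulVec_zero] at h1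
    rcases smul_eq_zero.mp h1.symm with h | h
    · exact h
    · exact absurd h (hw i)
  refine ⟨basisOfLinearIndependentOfCardEqFinrank hli (by simp), ?_, ?_⟩
  · intro i; simpa using hvi i
  · intro i j hij; simpa using hvj i j hij

lemma mulVec_eq_of_sum_one (F : Fin (d + 1) → Matrix (Fin (d + 1)) (Fin (d + 1)) K)
    (hsum : ∑ i, F i = 1) (x : Fin (d + 1) → K) : x = ∑ i, F i *ᵥ x := by
  rw [← Matrix.sum_mulVec, hsum, Matrix.one_mulVec]

/-- every vector is mapped by `F i` to a multiple of `b i`. -/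
lemma mulVec_eq_repr_smul (F : Fin (d + 1) → Matrix (Fin (d + 1)) (Fin (d + 1)) K)
    (b : Module.Basis (Fin (d + 1)) K (Fin (d + 1) → K))
    (hb : ∀ i, F i *ᵥ b i = b i) (hb' : ∀ i j, i ≠ j → F i *ᵥ b j = 0)
    (i : Fin (d + 1)) (x : Fin (d + 1) → K) : F i *ᵥ x = b.repr x i • b i := by
  classical
  conv_lhs => rw [← b.sum_repr x]
  rw [Matrix.mulVec_sum, Finset.sum_eq_single i]
  · rw [Matrix.mulVec_smul, hb]
  · intro j _ hji
    rw [Matrix.mulVec_smul, hb' i j (Ne.symm hji), smul_zero]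
  · intro h; exact absurd (Finset.mem_univ i) h

end aux

/-- For every field `K`, every Leonard system in `Mat_{d+1}(K)`, every `0 ≤ r ≤ d` and every
`L ⊆ {0, …, d}` with `|L| ≤ d - r`, the subspaces `∑_{i ≤ r} E*_i V` and `∑_{j ∈ L} E_j V`
of `V = K^{d+1}` intersect trivially. -/
theorem result {K : Type*} [Field K] (d : ℕ)
    (A Astar : Matrix (Fin (d + 1)) (Fin (d + 1)) K)
    (E Estar : Fin (d + 1) → Matrix (Fin (d + 1)) (Fin (d + 1)) K)
    (hΦ : IsLeonardSystem d A Astar E Estar)
    (r : ℕ) (hr : r ≤ d) (L : Finset (Fin (d + 1))) (hL : L.card ≤ d - r) :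
    (⨆ i : {i : Fin (d + 1) // (i : ℕ) ≤ r}, LinearMap.range (Matrix.mulVecLin (Estar i))) ⊓
      (⨆ j ∈ L, LinearMap.range (Matrix.mulVecLin (E j))) = ⊥ := by
  classical
  obtain ⟨θ, hθ, hEne, hEid, hEort, hEsum, hA⟩ := hΦ.ordering
  obtain ⟨θs, hθs, hEsne, hEsid, hEsort, hEssum, hAs⟩ := hΦ.ordering_star
  obtain ⟨b, hb, hb'⟩ := exists_adapted_basis Estar hEsne hEsid hEsort
  have hrepr := mulVec_eq_repr_smul Estar b hb hb'
  -- each basis vector is a polynomial in `A` applied to `b 0`
  have hpoly : ∀ k : ℕ, ∀ hk : k < d + 1, ∃ p : K[X], p.natDegree ≤ k ∧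
      b ⟨k, hk⟩ = (aeval A p) *ᵥ (b 0) := by
    intro k
    induction k using Nat.strong_induction_on with
    | _ k ih =>
      intro hk
      rcases Nat.eq_zero_or_pos k with h0 | hpos
      · subst h0
        refine ⟨1, by simp, ?_⟩
        simp
      · obtain ⟨m, rfl⟩ : ∃ m, k = m + 1 := ⟨k - 1, by omega⟩
        have hm : m < d + 1 := by omega
        obtain ⟨pm, hpm, hpm'⟩ := ih m (by omega) hm
        -- expansion of `A *ᵥ b m`
        have hexp : A *ᵥ b ⟨m, hm⟩ = ∑ i, b.repr (A *ᵥ b ⟨m, hm⟩) i • b i := (b.sum_repr _).symm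
        have hzero : ∀ i : Fin (d + 1), m + 1 < (i : ℕ) → b.repr (A *ᵥ b ⟨m, hm⟩) i = 0 := by
          intro i hi
          have h1 : (Estar i * A * Estar ⟨m, hm⟩) *ᵥ b ⟨m, hm⟩ = 0 := by
            rw [hΦ.zero_of_far_star i ⟨m, hm⟩, Matrix.zero_mulVec]
            rw [lt_abs]
            left
            have : ((i : ℕ) : ℤ) > (m : ℤ) + 1 := by exact_mod_cast hi
            simp only
            omega
          rw [← Matrix.mulVec_mulVec, ← Matrix.mulVec_mulVec, hb, hrepr] at h1
          rcases smul_eq_zero.mp h1 with h | h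
          · exact h
          · exact absurd h (b.ne_zero i)
        have hne : b.repr (A *ᵥ b ⟨m, hm⟩) ⟨m + 1, hk⟩ ≠ 0 := by
          intro hcon
          apply hΦ.ne_zero_of_adj_star ⟨m + 1, hk⟩ ⟨m, hm⟩
          · simp
          · apply Matrix.toLin'.injective
            apply b.ext
            intro j
            rw [Matrix.toLin'_apply, map_zero, LinearMap.zero_apply, ← Matrix.mulVec_mulVec,
              ← Matrix.mulVec_mulVec]
            by_cases hj : (⟨m, hm⟩ : Fin (d + 1)) = j
            · rw [← hj, hb, hrepr, hcon, zero_smul]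
            · rw [hb' _ _ hj, Matrix.mulVec_zero, Matrix.mulVec_zero]
        -- the lower terms are polynomials in `A` of degree at most `m`
        have hlow : ∀ i : Fin (d + 1), ∃ q : K[X], q.natDegree ≤ m + 1 ∧
            (i ≠ ⟨m + 1, hk⟩ → b.repr (A *ᵥ b ⟨m, hm⟩) i • b i = (aeval A q) *ᵥ (b 0)) := by
          intro i
          by_cases hi : (i : ℕ) < m + 1
          · obtain ⟨q, hq, hq'⟩ := ih i hi i.2
            refine ⟨C (b.repr (A *ᵥ b ⟨m, hm⟩) i) * q, ?_, ?_⟩
            · exact (natDegree_C_mul_le _ _).trans (by omega)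
            · intro _
              rw [map_mul, aeval_C, ← Matrix.mulVec_mulVec, ← hq', Algebra.algebraMap_eq_smul_one,
                Matrix.smul_mulVec, Matrix.one_mulVec]
          · refine ⟨0, by simp, ?_⟩
            intro hne'
            have hi' : m + 1 < (i : ℕ) := by
              rcases Nat.lt_or_ge (m + 1) i with h | h
              · exact h
              · exfalso; apply hne'; ext; simp only; omega
            rw [hzero i hi', zero_smul, map_zero, Matrix.zero_mulVec]
        choose q hq hq' using hlow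
        refine ⟨C (b.repr (A *ᵥ b ⟨m, hm⟩) ⟨m + 1, hk⟩)⁻¹ *
            (X * pm - ∑ i ∈ Finset.univ.erase (⟨m + 1, hk⟩ : Fin (d + 1)), q i), ?_, ?_⟩
        · refine (natDegree_C_mul_le _ _).trans ?_
          refine (natDegree_sub_le _ _).trans ?_
          refine max_le ?_ ?_
          · refine natDegree_mul_le.trans ?_
            have := natDegree_X_le (R := K)
            omega
          · apply natDegree_sum_le_of_forall_le
            intro i _
            exact hq i
        · rw [map_mul, map_sub, map_mul, aeval_X, aeval_C, map_sum, ← Matrix.mulVec_mulVec,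
            Matrix.sub_mulVec, ← Matrix.mulVec_mulVec, ← hpm', Matrix.sum_mulVec]
          have h2 : ∑ i ∈ Finset.univ.erase (⟨m + 1, hk⟩ : Fin (d + 1)), (aeval A (q i)) *ᵥ b 0
              = ∑ i ∈ Finset.univ.erase (⟨m + 1, hk⟩ : Fin (d + 1)),
                b.repr (A *ᵥ b ⟨m, hm⟩) i • b i := by
            apply Finset.sum_congr rfl
            intro i hi
            rw [hq' i (Finset.ne_of_mem_erase hi)]
          have h3 : A *ᵥ b ⟨m, hm⟩ = b.repr (A *ᵥ b ⟨m, hm⟩) ⟨m + 1, hk⟩ • b ⟨m + 1, hk⟩ +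
              ∑ i ∈ Finset.univ.erase (⟨m + 1, hk⟩ : Fin (d + 1)),
                b.repr (A *ᵥ b ⟨m, hm⟩) i • b i := by
            have h5 := Finset.add_sum_erase (Finset.univ : Finset (Fin (d + 1)))
              (fun i => b.repr (A *ᵥ b ⟨m, hm⟩) i • b i) (Finset.mem_univ ⟨m + 1, hk⟩)
            exact hexp.trans h5.symm
          rw [h2]
          have h4 : A *ᵥ b ⟨m, hm⟩ - ∑ i ∈ Finset.univ.erase (⟨m + 1, hk⟩ : Fin (d + 1)),
              b.repr (A *ᵥ b ⟨m, hm⟩) i • b i
              = b.repr (A *ᵥ b ⟨m, hm⟩) ⟨m + 1, hk⟩ • b ⟨m + 1, hk⟩ := by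
            rw [sub_eq_iff_eq_add]; exact h3
          rw [h4, Algebra.algebraMap_eq_smul_one, Matrix.smul_mulVec, Matrix.one_mulVec,
            smul_smul, inv_mul_cancel₀ hne, one_smul]
  -- `E j` intertwines polynomials in `A` with evaluation at `θ j`
  have hEA : ∀ j, E j * A = θ j • E j := by
    intro j
    rw [hA, Finset.mul_sum, Finset.sum_eq_single j]
    · rw [Matrix.mul_smul, hEid]
    · intro i _ hij
      rw [Matrix.mul_smul, hEort j i (Ne.symm hij), smul_zero]
    · intro h; exact absurd (Finset.mem_univ j) h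
  have hEpow : ∀ j (n : ℕ), E j * A ^ n = (θ j) ^ n • E j := by
    intro j n
    induction n with
    | zero => simp
    | succ n ih => rw [pow_succ, ← mul_assoc, ih, Matrix.smul_mul, hEA, smul_smul, pow_succ]
  have hEpoly : ∀ j (p : K[X]), E j * aeval A p = p.eval (θ j) • E j := by
    intro j p
    induction p using Polynomial.induction_on' with
    | add p q hp hq => rw [map_add, mul_add, hp, hq, eval_add, add_smul]
    | monomial n a =>
      rw [aeval_monomial, eval_monomial, Algebra.algebraMap_eq_smul_one, Matrix.smul_mul, one_mul,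
        Matrix.mul_smul, hEpow, smul_smul]
  -- `E j *ᵥ b 0 ≠ 0`
  have hEb : ∀ j, E j *ᵥ b 0 ≠ 0 := by
    intro j hcon
    apply hEne j
    apply Matrix.toLin'.injective
    apply b.ext
    intro k
    obtain ⟨p, -, hp⟩ := hpoly k k.2
    rw [Matrix.toLin'_apply, map_zero, LinearMap.zero_apply]
    have : b k = (aeval A p) *ᵥ (b 0) := hp
    rw [this, Matrix.mulVec_mulVec, hEpoly, Matrix.smul_mulVec, hcon, smul_zero]
  -- elements of the first sum are `g(A) b 0` with `deg g ≤ r`
  have hfirst : ∀ x ∈ (⨆ i : {i : Fin (d + 1) // (i : ℕ) ≤ r},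
      LinearMap.range (Matrix.mulVecLin (Estar i))),
      ∃ g : K[X], g.natDegree ≤ r ∧ x = (aeval A g) *ᵥ (b 0) := by
    intro x hx
    induction hx using Submodule.iSup_induction' with
    | mem i x hx =>
      obtain ⟨y, rfl⟩ := hx
      obtain ⟨p, hp, hp'⟩ := hpoly i.1 i.1.2
      refine ⟨C (b.repr y i.1) * p, ?_, ?_⟩
      · exact (natDegree_C_mul_le _ _).trans (hp.trans i.2)
      · rw [Matrix.mulVecLin_apply, hrepr, map_mul, aeval_C, ← Matrix.mulVec_mulVec, ← hp',
          Algebra.algebraMap_eq_smul_one, Matrix.smul_mulVec, Matrix.one_mulVec]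
    | zero => exact ⟨0, by simp, by simp⟩
    | add x y _ _ hx hy =>
      obtain ⟨g, hg, rfl⟩ := hx
      obtain ⟨g', hg', rfl⟩ := hy
      refine ⟨g + g', (natDegree_add_le _ _).trans (max_le hg hg'), ?_⟩
      rw [map_add, Matrix.add_mulVec]
  -- elements of the second sum are killed by `E j`, `j ∉ L`
  have hsecond : ∀ j, j ∉ L → (⨆ j ∈ L, LinearMap.range (Matrix.mulVecLin (E j))) ≤
      LinearMap.ker (Matrix.mulVecLin (E j)) := by
    intro j hj
    refine iSup₂_le ?_
    rintro i hi _ ⟨y, rfl⟩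
    have hij : j ≠ i := fun h => hj (h ▸ hi)
    rw [LinearMap.mem_ker, Matrix.mulVecLin_apply, Matrix.mulVecLin_apply, Matrix.mulVec_mulVec,
      hEort j i hij, Matrix.zero_mulVec]
  rw [eq_bot_iff]
  rintro x ⟨hx1, hx2⟩
  obtain ⟨g, hg, rfl⟩ := hfirst x hx1
  have hroot : ∀ j, j ∉ L → g.eval (θ j) = 0 := by
    intro j hj
    have h := hsecond j hj hx2
    rw [LinearMap.mem_ker, Matrix.mulVecLin_apply, Matrix.mulVec_mulVec, hEpoly,
      Matrix.smul_mulVec] at h
    rcases smul_eq_zero.mp h with h | h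
    · exact h
    · exact absurd h (hEb j)
  have hg0 : g = 0 := by
    by_contra hgne
    have hsub : (Finset.univ \ L).image θ ⊆ g.roots.toFinset := by
      intro t ht
      obtain ⟨j, hj, rfl⟩ := Finset.mem_image.mp ht
      rw [Multiset.mem_toFinset, mem_roots hgne, IsRoot.def]
      exact hroot j (Finset.mem_sdiff.mp hj).2
    have hcard := Finset.card_le_card hsub
    rw [Finset.card_image_of_injective _ hθ,
      Finset.card_sdiff_of_subset (Finset.subset_univ _), Finset.card_univ,
      Fintype.card_fin] at hcard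
    have h1 : g.roots.toFinset.card ≤ g.natDegree :=
      (Multiset.toFinset_card_le _).trans (card_roots' g)
    omega
  rw [Submodule.mem_bot, hg0, map_zero, Matrix.zero_mulVec]

end Pool.Agent.Results.MP_105763_al.LeonardZero
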